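import Pool.Agent.Work.MP_030dc9_lc.Final

/-!
MP_030dc9_lc, offline packet routing: the optimal constant is at least 8/7.

Proof idea.  Take `m` nodes on each of the levels `0, ..., k`, and regroup the `m * C` packets that
arrive at a node at random into `m` groups of `C`, one group for each edge to the next level.  A
schedule with few steps gives every packet a monotone sequence of delays in `{0, ..., W - 1}`,
different for the packets on one edge.  A union bound over all families of delays, with the number
of good regroupings compared to a reference profile, and a numerical certificate for `C = 120`,
`k = 216`, `W = 168` (checked by the kernel) show that some instance with congestion 120 and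
dilation 216 needs at least `k + W = 384` steps.
-/

set_option autoImplicit false

open scoped ENNReal

namespace Pool.Agent.Results.MP_030dc9_lc.EightSevenths

/-- the offline packet routing constant is at least `8 / 7` -/
theorem result : (8 / 7 : ℝ≥0∞) ≤ Pool.Agent.PR.cStar := Pool.Agent.PR.cStar_ge

end Pool.Agent.Results.MP_030dc9_lc.EightSevenths
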